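import Pool.Agent.helper60.MW.Spec
import Pool.Agent.helper17.WormPath

/-! Row mw:INS: insertion of a point by a detour. -/

set_option autoImplicit false

namespace Pool.Agent.MW

open MeasureTheory Set Pool.Agent.helper17.Worm

private theorem INS_cl (a b d : ℝ) (hab : a ≤ b) :
    0 ≤ max 0 (min b d) - max 0 (min a d) := by
  have := max_le_max (le_refl (0 : ℝ)) (min_le_min hab (le_refl d))
  linarith

private theorem INS_cl2 (a b d : ℝ) (hd : 0 ≤ d) (hab : a ≤ b) :
    max 0 (min b d) - max 0 (min a d) ≤ b - a := by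
  rcases le_total b d with h1 | h1
  · rw [min_eq_left h1, min_eq_left (hab.trans h1)]
    rcases le_total b 0 with h2 | h2
    · rw [max_eq_left h2, max_eq_left (hab.trans h2)]
      linarith
    · rw [max_eq_right h2]
      have := le_max_right 0 a
      linarith
  · rw [min_eq_right h1, max_eq_right hd]
    rcases le_total a d with h3 | h3
    · rw [min_eq_left h3]
      have := le_max_right 0 a
      linarith
    · rw [min_eq_right h3, max_eq_right hd]
      linarith

private theorem INS_sum (x d : ℝ) (hd : 0 ≤ d) :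
    max 0 (min x d) + max 0 (min (x - d) d) = max 0 (min x (2 * d)) := by
  rcases le_total x 0 with h0 | h0
  · rw [min_eq_left (h0.trans hd), min_eq_left (by linarith : x - d ≤ d),
      min_eq_left (by linarith : x ≤ 2 * d), max_eq_left h0, max_eq_left (by linarith)]
    ring
  · rcases le_total x d with h1 | h1
    · rw [min_eq_left h1, min_eq_left (by linarith : x - d ≤ d),
        min_eq_left (by linarith : x ≤ 2 * d), max_eq_right h0,
        max_eq_left (by linarith : x - d ≤ 0)]
      ring
    · rcases le_total x (2 * d) with h2 | h2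
      · rw [min_eq_right h1, min_eq_left (by linarith : x - d ≤ d), min_eq_left h2,
          max_eq_right h0, max_eq_right hd, max_eq_right (by linarith : (0 : ℝ) ≤ x - d)]
        ring
      · rw [min_eq_right h1, min_eq_right (by linarith : d ≤ x - d), min_eq_right h2,
          max_eq_right hd, max_eq_right (by linarith : (0 : ℝ) ≤ 2 * d)]
        ring

theorem INS : INS_stmt := by
  intro ℓ A p q hCv hp
  obtain ⟨hℓ, f, hf, hA⟩ := hCv
  obtain ⟨t₀, ⟨ht0, ht1⟩, rfl⟩ := hA hp
  set d : ℝ := ‖q - f t₀‖ with hdd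
  have hd : 0 ≤ d := norm_nonneg _
  obtain ⟨u, hu1, hu2⟩ : ∃ u : ℂ, ‖u‖ ≤ 1 ∧ (d : ℂ) * u = q - f t₀ := by
    rcases hd.eq_or_lt with h0 | h0
    · refine ⟨0, by simp, ?_⟩
      have : q - f t₀ = 0 := by rw [← norm_eq_zero, ← hdd, ← h0]
      rw [this, mul_zero]
    · refine ⟨(d : ℂ)⁻¹ * (q - f t₀), ?_, ?_⟩
      · rw [norm_mul, norm_inv, Complex.norm_real, Real.norm_of_nonneg hd, inv_mul_le_iff₀ h0]
        rw [mul_one]
      · have : (d : ℂ) ≠ 0 := by exact_mod_cast h0.ne'
        field_simp
  have hlip : ∀ x y : ℝ, ‖f x - f y‖ ≤ |x - y| := by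
    intro x y
    have := hf.dist_le_mul x y
    rwa [NNReal.coe_one, one_mul, dist_eq_norm, Real.dist_eq] at this
  let c1 : ℝ → ℝ := fun t => max 0 (min (t - t₀) d)
  let c2 : ℝ → ℝ := fun t => max 0 (min (t - t₀ - d) d)
  let h : ℝ → ℂ := fun t => f (t - c1 t - c2 t) + ((c1 t - c2 t : ℝ) : ℂ) * u
  refine ⟨by linarith, h, lipschitz_of_ordered fun s t hst => ?_, ?_⟩
  · have e1 : 0 ≤ c1 t - c1 s := INS_cl (s - t₀) (t - t₀) d (by linarith)
    have e2 : 0 ≤ c2 t - c2 s := INS_cl (s - t₀ - d) (t - t₀ - d) d (by linarith)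
    have e3 : (c1 t + c2 t) - (c1 s + c2 s) ≤ t - s := by
      have h1 : c1 t + c2 t = max 0 (min (t - t₀) (2 * d)) := INS_sum (t - t₀) d hd
      have h2 : c1 s + c2 s = max 0 (min (s - t₀) (2 * d)) := INS_sum (s - t₀) d hd
      have h3 := INS_cl2 (s - t₀) (t - t₀) (2 * d) (by linarith) (by linarith)
      rw [h1, h2]
      linarith
    have e4 : h s - h t = (f (s - c1 s - c2 s) - f (t - c1 t - c2 t)) +
        (((c1 s - c2 s) - (c1 t - c2 t) : ℝ) : ℂ) * u := by
      simp only [h]
      push_cast
      ring
    have e5 : ‖f (s - c1 s - c2 s) - f (t - c1 t - c2 t)‖ ≤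
        (t - c1 t - c2 t) - (s - c1 s - c2 s) := by
      refine (hlip _ _).trans ?_
      rw [abs_sub_comm, abs_of_nonneg (by linarith)]
    have e6 : ‖(((c1 s - c2 s) - (c1 t - c2 t) : ℝ) : ℂ) * u‖ ≤
        |(c1 s - c2 s) - (c1 t - c2 t)| := by
      rw [norm_mul, Complex.norm_real, Real.norm_eq_abs]
      exact mul_le_of_le_one_right (abs_nonneg _) hu1
    rw [e4]
    refine (norm_add_le _ _).trans ?_
    have e7 : |(c1 s - c2 s) - (c1 t - c2 t)| ≤
        (t - s) - ((t - c1 t - c2 t) - (s - c1 s - c2 s)) := by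
      rw [abs_le]
      constructor <;> linarith
    linarith
  · intro z hz
    rcases mem_insert_iff.1 hz with rfl | hz
    · refine ⟨t₀ + d, ⟨by linarith, by linarith⟩, ?_⟩
      have e1 : c1 (t₀ + d) = d := by
        simp only [c1]
        rw [add_sub_cancel_left, min_self, max_eq_right hd]
      have e2 : c2 (t₀ + d) = 0 := by
        simp only [c2]
        rw [add_sub_cancel_left, sub_self, min_eq_left hd, max_self]
      simp only [h]
      rw [e1, e2, sub_zero, sub_zero, add_sub_cancel_right, hu2]
      ring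
    · obtain ⟨t, ⟨h0, h1⟩, rfl⟩ := hA hz
      rcases le_total t t₀ with h2 | h2
      · refine ⟨t, ⟨h0, by linarith⟩, ?_⟩
        have e1 : c1 t = 0 := by
          simp only [c1]
          exact max_eq_left ((min_le_left _ _).trans (by linarith))
        have e2 : c2 t = 0 := by
          simp only [c2]
          exact max_eq_left ((min_le_left _ _).trans (by linarith))
        simp only [h]
        rw [e1, e2]
        simp
      · refine ⟨t + 2 * d, ⟨by linarith, by linarith⟩, ?_⟩
        have e1 : c1 (t + 2 * d) = d := by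
          simp only [c1]
          rw [min_eq_right (by linarith), max_eq_right hd]
        have e2 : c2 (t + 2 * d) = d := by
          simp only [c2]
          rw [min_eq_right (by linarith), max_eq_right hd]
        simp only [h]
        rw [e1, e2, sub_self]
        have e3 : t + 2 * d - d - d = t := by ring
        rw [e3]
        simp

end Pool.Agent.MW
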