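import Pool.Agent.helper60.MW.Spec

/-! Row mw:LMA: many scales at once. -/

set_option autoImplicit false

namespace Pool.Agent.MW

open MeasureTheory Set Pool.Agent.helper17.Worm

private theorem LMA_nb (X : Set ℂ) (g : ℝ × ℂ) (N : Finset ℂ) (a s : ℝ) :
    nbad X g (fun i : N => (i : ℂ)) a s = nb X g N a s := by
  classical
  unfold nbad nb
  refine Finset.card_bij (fun i _ => (i : ℂ)) ?_ ?_ ?_
  · intro i hi
    rw [Finset.mem_filter] at hi ⊢
    exact ⟨i.2, hi.2⟩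
  · intro i _ j _ hij
    exact Subtype.ext hij
  · intro n hn
    rw [Finset.mem_filter] at hn
    exact ⟨⟨n, hn.1⟩, by rw [Finset.mem_filter]; exact ⟨Finset.mem_univ _, hn.2⟩, rfl⟩

private theorem LMA_mono {ℓ ℓ' : ℝ} {A : Set ℂ} (h : Cv ℓ A) (hl : ℓ ≤ ℓ') : Cv ℓ' A := by
  obtain ⟨h0, f, hf, hA⟩ := h
  exact ⟨h0.trans hl, f, hf, hA.trans (image_mono (Icc_subset_Icc le_rfl hl))⟩

theorem LMA (hREG : REG_stmt) (hCHN : CHN_stmt) : LMA_stmt := by
  intro X hX hC hvol ℓ Γ hΓ J N κ a K hJ hsum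
  by_contra hcon
  push Not at hcon
  obtain ⟨ρ, hρ, hreg⟩ := hREG X hX hC
  have hch : ∀ j ∈ J, ∃ (N' : Finset ℂ) (a' : ℝ), 0 < a' ∧ a' ≤ ρ / 2 ∧
      (∀ (ℓ : ℝ) (A : Set ℂ), Cv ℓ A → (∀ n ∈ N j, n ∈ A) →
        Cv (ℓ + 6 * ((N j).card : ℝ) * a j) (A ∪ N')) ∧
      ∀ g : ℝ × ℂ, K j ≤ nb X g (N j) (a j) (1 - κ j) →
        ∃ n ∈ N', occ X g (sq n a') ≤ (1 - κ j / 2) * a' ^ 2 := by
    intro j hj
    obtain ⟨h1, h2, h3, h4, h5, h6, h7⟩ := hJ j hj
    have hcard : Fintype.card (N j) = (N j).card := Fintype.card_coe _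
    obtain ⟨N', a', k1, k2, k3, k4⟩ := hCHN (N j) X hX.measurableSet hvol (κ j) (a j) (K j)
      (fun i : N j => (i : ℂ)) {g | K j ≤ nb X g (N j) (a j) (1 - κ j)} h1 h2 h3 h4
      (by rw [hcard]; exact h5.card_pos) (fun i => (h6 i i.2).2) (by rw [hcard]; exact h7)
      (fun g hg => by rw [LMA_nb]; exact hg) (ρ / 2) (by linarith)
    refine ⟨N', a', k1, k2, ?_, fun g hg => k4 g hg⟩
    intro ℓ A hA hn
    have := k3 ℓ A hA (fun i => hn i i.2)
    rwa [hcard] at this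
  choose! N' a' k1 k2 k3 k4 using hch
  have hind : ∀ J' : Finset ℕ, J' ⊆ J →
      Cv (ℓ + ∑ j ∈ J', 6 * ((N j).card : ℝ) * a j) (Γ ∪ ⋃ j ∈ J', (N' j : Set ℂ)) := by
    intro J'
    induction J' using Finset.induction_on with
    | empty =>
      intro _
      simpa using hΓ
    | insert i J' hi ih =>
      intro hsub
      have hiJ : i ∈ J := hsub (Finset.mem_insert_self _ _)
      have h1 := ih ((Finset.subset_insert _ _).trans hsub)
      have h2 := k3 i hiJ _ _ h1 (fun n hn => Or.inl ((hJ i hiJ).2.2.2.2.2.1 n hn).1)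
      rw [Finset.sum_insert hi]
      have e1 : ℓ + (6 * ((N i).card : ℝ) * a i + ∑ j ∈ J', 6 * ((N j).card : ℝ) * a j) =
          ℓ + ∑ j ∈ J', 6 * ((N j).card : ℝ) * a j + 6 * ((N i).card : ℝ) * a i := by ring
      have e2 : (Γ ∪ ⋃ j ∈ insert i J', (N' j : Set ℂ)) =
          (Γ ∪ ⋃ j ∈ J', (N' j : Set ℂ)) ∪ (N' i : Set ℂ) := by
        rw [Finset.set_biUnion_insert, union_assoc, union_comm (N' i : Set ℂ)]
      rw [e1, e2]
      exact h2
  have hone := LMA_mono (hind J subset_rfl) hsum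
  obtain ⟨g, hg⟩ := hreg _ hone
  obtain ⟨j, hj, hbad⟩ := hcon g
  obtain ⟨n, hn, hocc⟩ := k4 j hj g hbad
  have hnA : n ∈ Γ ∪ ⋃ j ∈ J, (N' j : Set ℂ) := by
    refine Or.inr (mem_iUnion₂.2 ⟨j, hj, hn⟩)
  have ha' : 0 < a' j := k1 j hj
  have ha2 : a' j ≤ ρ / 2 := k2 j hj
  have hsub : sq n (a' j) ⊆ mv g ⁻¹' X := by
    intro z hz
    refine hg n hnA ?_
    rw [Metric.mem_ball, dist_eq_norm, dist_mv]
    have hz' := hz
    unfold sq at hz'
    rw [mem_rc] at hz'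
    obtain ⟨⟨z1, z2⟩, z3, z4⟩ := hz'
    have e1 : |(z - n).re| < a' j := by
      rw [Complex.sub_re, abs_lt]
      constructor <;> linarith
    have e2 : |(z - n).im| < a' j := by
      rw [Complex.sub_im, abs_lt]
      constructor <;> linarith
    have := Complex.norm_le_abs_re_add_abs_im (z - n)
    linarith
  have hfull : occ X g (sq n (a' j)) = a' j ^ 2 := by
    unfold occ
    rw [inter_eq_left.2 hsub]
    unfold sq
    rw [volume_real_rc ha'.le ha'.le, pow_two]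
  rw [hfull] at hocc
  have hκ : 0 < κ j := (hJ j hj).1
  have : 0 < κ j / 2 * a' j ^ 2 := by positivity
  nlinarith

end Pool.Agent.MW
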