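import Pool.Agent.helper60.MW.Spec

/-! Row mw:MEA: measure of a small ball of motions. -/

set_option autoImplicit false

namespace Pool.Agent.MW

open MeasureTheory Set Pool.Agent.helper17.Worm

theorem MEA : MEA_stmt := by
  intro d θ v hd h0 h1
  have hset : {g' : ℝ × ℂ | |θ - g'.1| ≤ d / 8 ∧ ‖v - g'.2‖ ≤ d / 2} =
      Icc (θ - d / 8) (θ + d / 8) ×ˢ Metric.closedBall v (d / 2) := by
    ext g'
    rw [mem_setOf_eq, mem_prod, mem_Icc, Metric.mem_closedBall, dist_eq_norm, norm_sub_rev v,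
      abs_le]
    constructor
    · rintro ⟨⟨h2, h3⟩, h4⟩
      exact ⟨⟨by linarith, by linarith⟩, h4⟩
    · rintro ⟨⟨h2, h3⟩, h4⟩
      exact ⟨⟨by linarith, by linarith⟩, h4⟩
  rw [hset]
  unfold muG
  rw [Measure.prod_prod, Measure.restrict_apply measurableSet_Icc,
    Set.inter_eq_left.mpr (Icc_subset_Icc (by linarith) (by linarith)),
    Real.volume_Icc, Complex.volume_closedBall]
  have e1 : θ + d / 8 - (θ - d / 8) = d / 4 := by ring
  have e2 : (NNReal.pi : ENNReal) = ENNReal.ofReal Real.pi := by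
    rw [ENNReal.ofReal, ← NNReal.coe_real_pi, Real.toNNReal_coe]
  rw [e1, e2, ← ENNReal.ofReal_pow (by positivity), ← ENNReal.ofReal_mul (by positivity),
    ← ENNReal.ofReal_mul (by positivity)]
  refine ENNReal.ofReal_le_ofReal (le_of_eq ?_)
  ring

end Pool.Agent.MW
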